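import Pool.Agent.Run7.h425.RN.Iface

set_option autoImplicit false

/-!
Pieces HEAD, GLUE, STAT, ANA of the project RN of helper425.
-/

namespace Pool.Agent.Run7.h227.RN

open MeasureTheory Real
open scoped ENNReal
open Pool.Agent.Run7.h425.RN

/-- a measure which is a product on the boxes over `range (n + M)` -/
theorem eq_PP {ν : Measure Tc} [IsProbabilityMeasure ν] {μ : Measure (ℕ → Tc)} (n : ℕ)
    (h : ∀ (M : ℕ) (t : ℕ → Set Tc), (∀ i, MeasurableSet (t i)) →
      μ (Set.pi (Finset.range (n + M) : Finset ℕ) t) = ∏ i ∈ Finset.range (n + M), ν (t i)) :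
    μ = PP ν := by
  classical
  refine Measure.eq_infinitePi _ fun s t ht => ?_
  obtain ⟨N, hN⟩ : ∃ N, s ⊆ Finset.range (n + N) := ⟨s.sup id + 1, fun i hi => by
    have := Finset.le_sup (f := id) hi
    simp only [id] at this
    rw [Finset.mem_range]
    omega⟩
  have h1 := h N (fun i => if i ∈ s then t i else Set.univ) (fun i => by
    split_ifs
    exacts [ht i, MeasurableSet.univ])
  have h2 : Set.pi (s : Set ℕ) t =
      Set.pi (Finset.range (n + N) : Finset ℕ) (fun i => if i ∈ s then t i else Set.univ) := by
    ext x
    simp only [Set.mem_pi, Finset.mem_coe]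
    constructor
    · intro hx i _
      split_ifs with hi
      · exact hx i hi
      · trivial
    · intro hx i hi
      have := hx i (hN hi)
      rwa [if_pos hi] at this
  rw [h2, h1, ← Finset.prod_subset hN (fun i _ hi => by rw [if_neg hi]; exact measure_univ)]
  exact Finset.prod_congr rfl fun i hi => by rw [if_pos hi]

theorem PP_pi (ν : Measure Tc) [IsProbabilityMeasure ν] (N : ℕ) {t : ℕ → Set Tc}
    (ht : ∀ i, MeasurableSet (t i)) :
    PP ν (Set.pi (Finset.range N : Finset ℕ) t) = ∏ i ∈ Finset.range N, ν (t i) :=
  Measure.infinitePi_pi _ fun i _ => ht i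

theorem pi_meas (N : ℕ) {t : ℕ → Set Tc} (ht : ∀ i, MeasurableSet (t i)) :
    MeasurableSet (Set.pi (Finset.range N : Finset ℕ) t) :=
  MeasurableSet.pi (Finset.range N).countable_toSet fun i _ => ht i

theorem cns_meas : Measurable (fun q : Tc × (ℕ → Tc) => cns q.1 q.2) := by
  rw [measurable_pi_iff]
  intro i
  cases i with
  | zero => exact measurable_fst
  | succ i => exact (measurable_pi_apply i).comp measurable_snd

theorem cns_map (ν : Measure Tc) [IsProbabilityMeasure ν] :
    (ν.prod (PP ν)).map (fun q => cns q.1 q.2) = PP ν := by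
  refine eq_PP 1 fun M t ht => ?_
  rw [Measure.map_apply cns_meas (pi_meas _ ht)]
  have h : (fun q : Tc × (ℕ → Tc) => cns q.1 q.2) ⁻¹' (Set.pi (Finset.range (1 + M) : Finset ℕ) t) =
      (t 0) ×ˢ (Set.pi (Finset.range M : Finset ℕ) fun i => t (1 + i)) := by
    ext ⟨x, ω⟩
    simp only [Set.mem_preimage, Set.mem_pi, Finset.mem_coe, Finset.mem_range, Set.mem_prod]
    constructor
    · intro hx
      refine ⟨hx 0 (by omega), fun i hi => ?_⟩
      have := hx (1 + i) (by omega)
      rw [add_comm 1 i] at this ⊢
      exact this
    · rintro ⟨h1, h2⟩ i hi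
      cases i with
      | zero => exact h1
      | succ i =>
        have := h2 i (by omega)
        rw [add_comm 1 i] at this
        exact this
  rw [h, Measure.prod_prod, PP_pi ν M fun i => ht (1 + i), Finset.prod_range_add,
    Finset.prod_range_one]

theorem t_HEAD : S_HEAD := by
  intro ν _ H hH
  calc ∫⁻ ω, H ω ∂(PP ν) = ∫⁻ ω, H ω ∂((ν.prod (PP ν)).map (fun q => cns q.1 q.2)) := by
        rw [cns_map]
    _ = ∫⁻ q : Tc × (ℕ → Tc), H (cns q.1 q.2) ∂(ν.prod (PP ν)) := lintegral_map hH cns_meas
    _ = _ := lintegral_prod _ (hH.comp cns_meas).aemeasurable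

theorem t_GLUE : S_GLUE := by
  intro ν _ n
  have hm : Measurable (glue n) := by
    rw [measurable_pi_iff]
    intro i
    unfold glue
    by_cases hi : i < n
    · simp only [hi, if_true]
      exact (measurable_pi_apply i).comp measurable_fst
    · simp only [hi, if_false]
      exact (measurable_pi_apply (i - n)).comp measurable_snd
  have hs : Measurable (sh n) := by
    rw [measurable_pi_iff]
    intro i
    exact measurable_pi_apply (n + i)
  refine ⟨⟨hm, eq_PP n fun M t ht => ?_⟩, ⟨hs, eq_PP 0 fun M t ht => ?_⟩⟩
  · rw [Measure.map_apply hm (pi_meas _ ht)]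
    have h : glue n ⁻¹' (Set.pi (Finset.range (n + M) : Finset ℕ) t) =
        (Set.pi (Finset.range n : Finset ℕ) t) ×ˢ
          (Set.pi (Finset.range M : Finset ℕ) fun i => t (n + i)) := by
      ext ⟨ω, ω'⟩
      simp only [Set.mem_preimage, Set.mem_pi, Finset.mem_coe, Finset.mem_range, Set.mem_prod]
      constructor
      · intro hx
        refine ⟨fun i hi => ?_, fun i hi => ?_⟩
        · have := hx i (by omega)
          simpa [glue, hi] using this
        · have := hx (n + i) (by omega)
          simpa [glue] using this
      · rintro ⟨h1, h2⟩ i hi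
        by_cases hin : i < n
        · have := h1 i hin
          simpa [glue, hin] using this
        · obtain ⟨j, rfl⟩ := Nat.exists_eq_add_of_le (not_lt.1 hin)
          have := h2 j (by omega)
          simpa [glue] using this
    rw [h, Measure.prod_prod, PP_pi ν M fun i => ht (n + i), PP_pi ν n ht, Finset.prod_range_add]
  · rw [Measure.map_apply hs (pi_meas _ ht), zero_add]
    have ht' : ∀ i, MeasurableSet (if i < n then Set.univ else t (i - n) : Set Tc) := by
      intro i
      split_ifs
      exacts [MeasurableSet.univ, ht _]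
    have h : sh n ⁻¹' (Set.pi (Finset.range M : Finset ℕ) t) =
        Set.pi (Finset.range (n + M) : Finset ℕ)
          (fun i => if i < n then Set.univ else t (i - n)) := by
      ext ω
      simp only [Set.mem_preimage, Set.mem_pi, Finset.mem_coe, Finset.mem_range]
      constructor
      · intro hx i hi
        split_ifs with hin
        · trivial
        · obtain ⟨j, rfl⟩ := Nat.exists_eq_add_of_le (not_lt.1 hin)
          have := hx j (by omega)
          simpa [sh] using this
      · intro hx i hi
        have := hx (n + i) (by omega)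
        simpa [sh] using this
    rw [h, PP_pi ν _ ht', Finset.prod_range_add]
    have h1 : ∏ x ∈ Finset.range n, ν (if x < n then Set.univ else t (x - n)) = 1 := by
      refine Finset.prod_eq_one fun x hx => ?_
      rw [if_pos (Finset.mem_range.1 hx), measure_univ]
    rw [h1, one_mul]
    refine Finset.prod_congr rfl fun x _ => ?_
    rw [if_neg (by omega), Nat.add_sub_cancel_left]

theorem sn_cont : Continuous sn := by
  unfold sn
  exact Complex.continuous_im.comp (fourier 1).continuous

theorem nxt_mp (a : ℝ) (s : Tc) : MeasurePreserving (fun p : T2 => nxt a p s) volume volume := by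
  have hc : Continuous fun x : Tc => x + x + ((a * sn x : ℝ) : Tc) + s := by
    have h1 : Continuous fun x : Tc => ((a * sn x : ℝ) : Tc) :=
      (AddCircle.continuous_mk' 1).comp (continuous_const.mul sn_cont)
    fun_prop
  have h1 : MeasurePreserving (fun p : T2 => (p.1, (p.1 + p.1 + ((a * sn p.1 : ℝ) : Tc) + s) - p.2))
      ((volume : Measure UnitAddCircle).prod volume) ((volume : Measure UnitAddCircle).prod volume) := by
    refine MeasurePreserving.skew_product (f := id)
      (g := fun (x : UnitAddCircle) (y : UnitAddCircle) => (x + x + ((a * sn x : ℝ) : Tc) + s) - y)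
      (MeasurePreserving.id _) ?_ ?_
    · apply Continuous.measurable
      unfold Function.uncurry
      exact (hc.comp continuous_fst).sub continuous_snd
    · refine Filter.Eventually.of_forall fun x => ?_
      exact (Measure.measurePreserving_sub_left volume _).map_eq
  have h2 : MeasurePreserving (Prod.swap : T2 → T2)
      ((volume : Measure UnitAddCircle).prod volume) ((volume : Measure UnitAddCircle).prod volume) :=
    Measure.measurePreserving_swap
  have h3 := h2.comp h1
  have h4 : (fun p : T2 => nxt a p s) =
      Prod.swap ∘ (fun p : T2 => (p.1, (p.1 + p.1 + ((a * sn p.1 : ℝ) : Tc) + s) - p.2)) := by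
    funext p
    show (p.1 + p.1 - p.2 + ((a * sn p.1 : ℝ) : Tc) + s, p.1) =
      ((p.1 + p.1 + ((a * sn p.1 : ℝ) : Tc) + s) - p.2, p.1)
    congr 1
    abel
  rw [h4]
  exact h3

theorem t_STAT : S_STAT := by
  intro a ω n
  induction n with
  | zero => exact MeasurePreserving.id _
  | succ n ih => exact (nxt_mp a (ω n)).comp ih

theorem t_ANA : S_ANA := by
  intro L b h0 hs hu n N
  have h1 : ∀ n : ℕ, (n : ℝ) * (L N - b) ≤ L (n * (N + 4)) := by
    intro n
    induction n with
    | zero => simp [h0]
    | succ n ih =>
      have h2 := hu N (n * (N + 4))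
      have h3 : N + 4 + n * (N + 4) = (n + 1) * (N + 4) := by ring
      rw [h3] at h2
      push_cast
      linarith
  have h4 : ∀ m : ℕ, L (n * m) ≤ m * L n := by
    intro m
    induction m with
    | zero => simp [h0]
    | succ m ih =>
      have h5 := hs (n * m) n
      have h6 : n * m + n = n * (m + 1) := by ring
      rw [h6] at h5
      push_cast
      linarith
  have h7 := (h1 n).trans (h4 (N + 4))
  push_cast at h7
  exact h7

end Pool.Agent.Run7.h227.RN
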